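import Pool.Agent.H41.NF.Cnt
import Pool.Agent.H59.HYP.CTM

/-!
# NF, NST: the standard pair depends only on `f` modulo `P`
-/

set_option autoImplicit false

namespace Pool.NF

open Polynomial Matrix Pool.HYP Pool.T1 IsDedekindDomain NumberField

theorem nst : NSTStmt := by
  intro R _ P n f f' G S hP hf hf' _ _ hz hst
  obtain ⟨a, ha, hG, hS⟩ := hst
  have hnt : (1 : R ⧸ P) ≠ 0 := by
    have : Nontrivial (R ⧸ P) := Ideal.Quotient.nontrivial_iff.2 hP
    exact one_ne_zero
  have hff : f.map (Ideal.Quotient.mk P) = f'.map (Ideal.Quotient.mk P) := by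
    have h1 : (f - f').map (Ideal.Quotient.mk P) = 0 := by
      ext i
      rw [coeff_map, coeff_zero]
      exact Ideal.Quotient.eq_zero_iff_mem.2 (hz i)
    rwa [Polynomial.map_sub, sub_eq_zero] at h1
  have hcomp : ∀ k, (aᵀ * gr k n f 1 * a).map (Ideal.Quotient.mk P) =
      (aᵀ * gr k n f' 1 * a).map (Ideal.Quotient.mk P) := by
    intro k
    rw [Matrix.map_mul, Matrix.map_mul, Matrix.map_mul, Matrix.map_mul,
      Pool.HYP59.gr_map _ hf _ _ hnt, Pool.HYP59.gr_map _ hf' _ _ hnt, hff]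
  have hmem : ∀ (A B C : Matrix (Fin n) (Fin n) R),
      B.map (Ideal.Quotient.mk P) = C.map (Ideal.Quotient.mk P) →
      (∀ i j, (A - B) i j ∈ P) → ∀ i j, (A - C) i j ∈ P := by
    intro A B C hBC hA i j
    have h1 := congrFun (congrFun hBC i) j
    rw [Matrix.map_apply, Matrix.map_apply, Ideal.Quotient.mk_eq_mk_iff_sub_mem] at h1
    have h2 : (A - C) i j = (A - B) i j + (B i j - C i j) := by
      rw [Matrix.sub_apply, Matrix.sub_apply]
      ring
    rw [h2]
    exact P.add_mem (hA i j) h1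
  exact ⟨a, ha, hmem _ _ _ (hcomp 0) hG, hmem _ _ _ (hcomp 1) hS⟩

end Pool.NF
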