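import Pool.Agent.H41.NF.Cnt
import Pool.Agent.H50.NF.Cnt

/-!
# NF, NUU: the number of the unipotent matrices
-/

set_option autoImplicit false

namespace Pool.NF

open Polynomial Matrix Pool.HYP Pool.T1 IsDedekindDomain NumberField

private theorem bx_finite (hU : BXUStmt) (K : Type) [Field K] [NumberField K] (ρ : ℝ)
    (hρ : 0 ≤ ρ) : (Bx K ρ).Finite := by
  obtain ⟨C, _, h⟩ := hU K
  have h1 := (h ⊤ top_ne_bot 0 ρ hρ).1
  refine h1.subset fun x hx => ⟨hx, ?_⟩
  exact Submodule.mem_top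

theorem nuu (hU : BXUStmt) (hL : BXLStmt) : NUUStmt := by
  intro K _ _ C hC
  obtain ⟨c, hc, hc1, -⟩ := hL K
  refine ⟨c ^ 3 * Real.exp (-(2 * C * dg K)), by positivity, fun d hd => ?_⟩
  have hfin : ∀ i j : Fin 3, (Bx K (Real.exp (d j - d i))).Finite := fun i j =>
    bx_finite hU K _ (Real.exp_pos _).le
  have hUU : UUn K d = Cnt.UniS fun i j : Fin 3 => Bx K (Real.exp (d j - d i)) := rfl
  obtain ⟨h1, h2⟩ := Cnt.uni_cnt (fun i j : Fin 3 => Bx K (Real.exp (d j - d i))) hfin
  rw [hUU]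
  refine ⟨h1, ?_⟩
  rw [h2]
  have hlow : ∀ i j : Fin 3, i ≤ j →
      c * Real.exp (dg K * (d j - d i)) ≤ ((Bx K (Real.exp (d j - d i))).ncard : ℝ) := by
    intro i j hij
    have h3 : 1 ≤ Real.exp (d j - d i) := by
      rw [Real.one_le_exp_iff]
      exact sub_nonneg.2 (hd.1 hij)
    have h4 := hc1 _ h3
    rwa [← Real.exp_nat_mul] at h4
  have h01 := hlow 0 1 (by decide)
  have h02 := hlow 0 2 (by decide)
  have h12 := hlow 1 2 (by decide)
  have hprod : Cnt.prLt (fun i j : Fin 3 => ((Bx K (Real.exp (d j - d i))).ncard : ℝ)) =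
      ((Bx K (Real.exp (d 1 - d 0))).ncard : ℝ) * ((Bx K (Real.exp (d 2 - d 0))).ncard : ℝ) *
        ((Bx K (Real.exp (d 2 - d 1))).ncard : ℝ) := by
    unfold Cnt.prLt
    simp [Fin.prod_univ_three]
  rw [hprod]
  calc c ^ 3 * Real.exp (-(2 * C * dg K)) * Real.exp (-(4 * dg K) * d 0)
      ≤ (c * Real.exp (dg K * (d 1 - d 0))) * (c * Real.exp (dg K * (d 2 - d 0))) *
        (c * Real.exp (dg K * (d 2 - d 1))) := by
        have e1 : (c * Real.exp (dg K * (d 1 - d 0))) * (c * Real.exp (dg K * (d 2 - d 0))) *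
            (c * Real.exp (dg K * (d 2 - d 1))) =
            c ^ 3 * Real.exp (2 * dg K * (d 2 - d 0)) := by
          have e2 : (2 * dg K * (d 2 - d 0) : ℝ) = dg K * (d 1 - d 0) + dg K * (d 2 - d 0) +
              dg K * (d 2 - d 1) := by ring
          rw [e2, Real.exp_add, Real.exp_add]
          ring
        rw [e1, mul_assoc, ← Real.exp_add]
        refine mul_le_mul_of_nonneg_left ?_ (by positivity)
        rw [Real.exp_le_exp]
        have h5 : 0 ≤ (dg K : ℝ) * (d 0 + d 2 + C) :=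
          mul_nonneg (Nat.cast_nonneg _) (by linarith only [hd.2.2.1])
        linarith only [h5]
    _ ≤ _ := by
        refine mul_le_mul (mul_le_mul h01 h02 (by positivity) (Nat.cast_nonneg _)) h12
          (by positivity) (by positivity)

end Pool.NF
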