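import Pool.Agent.H18.NF.ZpB

/-!
# NF, module DGN: near matrices can be diagonalised to near diagonal matrices
-/

set_option autoImplicit false

namespace Pool.NF

open Matrix

namespace DgnAux

variable {ι : Type}

/-- entries regular at `2` -/
def In2 (M : Matrix ι ι ℚ) : Prop := ∀ i j, M i j ∈ Zp 2

lemma In2.mul [Fintype ι] {M N : Matrix ι ι ℚ} (hM : In2 M) (hN : In2 N) : In2 (M * N) := by
  intro i j
  rw [Matrix.mul_apply]
  exact ZpA.sum_mem Nat.prime_two _ _ (fun l _ => ZpA.mul_mem Nat.prime_two (hM i l) (hN l j))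

lemma In2.add {M N : Matrix ι ι ℚ} (hM : In2 M) (hN : In2 N) : In2 (M + N) := by
  intro i j
  rw [Matrix.add_apply]
  exact ZpA.add_mem Nat.prime_two (hM i j) (hN i j)

lemma In2.smul {M : Matrix ι ι ℚ} {c : ℚ} (hc : c ∈ Zp 2) (hM : In2 M) : In2 (c • M) := by
  intro i j
  rw [Matrix.smul_apply, smul_eq_mul]
  exact ZpA.mul_mem Nat.prime_two hc (hM i j)

lemma In2.transpose {M : Matrix ι ι ℚ} (hM : In2 M) : In2 Mᵀ := fun i j => hM j i

lemma exists_den_mat [Fintype ι] (M : Matrix ι ι ℚ) : ∃ c : ℚ, c ≠ 0 ∧ c ∈ Zp 2 ∧ In2 (c • M) := by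
  obtain ⟨c, hc0, hc1, hc⟩ := ZpA.exists_den Nat.prime_two
    (Finset.univ : Finset (ι × ι)) (fun q => M q.1 q.2)
  refine ⟨c, hc0, hc1, ?_⟩
  intro i j
  rw [Matrix.smul_apply, smul_eq_mul]
  exact hc (i, j) (Finset.mem_univ _)

/-- continuity at infinity -/
lemma cont [Fintype ι] (A K : Matrix ι ι ℝ) (ε : ℝ) (hε : 0 < ε) : ∃ δ : ℝ, 0 < δ ∧ ∀ Q : Matrix ι ι ℝ,
    (∀ i j, |Q i j - K i j| < δ) → ∀ i j, |(Qᵀ * A * Q) i j - (Kᵀ * A * K) i j| < ε := by
  set F : (ι → ι → ℝ) → (ι → ι → ℝ) := fun M i j => ∑ l, (∑ m, M m i * A m l) * M l j with hF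
  have hcont : Continuous F := by
    rw [hF]
    fun_prop
  obtain ⟨δ, hδ, h⟩ := Metric.continuousAt_iff.mp
    (hcont.continuousAt (x := fun i j => K i j)) ε hε
  refine ⟨δ, hδ, ?_⟩
  intro Q hQ i j
  have h1 : dist (fun i j => Q i j) (fun i j => K i j) < δ := by
    rw [dist_pi_lt_iff hδ]
    intro i
    rw [dist_pi_lt_iff hδ]
    intro j
    rw [Real.dist_eq]
    exact hQ i j
  have h2 := h h1
  have h3 : dist (F (fun i j => Q i j) i j) (F (fun i j => K i j) i j) < ε :=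
    lt_of_le_of_lt ((dist_le_pi_dist _ _ j).trans (dist_le_pi_dist _ _ i)) h2
  rw [Real.dist_eq] at h3
  simp only [Matrix.mul_apply, Matrix.transpose_apply]
  exact h3

end DgnAux

open DgnAux in
theorem dgn (hE : DGEStmt) (hW : WAQStmt) (hG : GSNStmt) : DGNStmt := by
  intro ι _ _ A B hA hB hdA hdB hNear hIso
  have hp : Nat.Prime 2 := Nat.prime_two
  obtain ⟨h, b, hdh, hhb⟩ := hE ℚ two_ne_zero ι B hB
  have hb : ∀ i, b i ≠ 0 := by
    intro i hi
    have h1 : (Matrix.diagonal b).det = 0 := by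
      rw [Matrix.det_diagonal]
      exact Finset.prod_eq_zero (Finset.mem_univ i) hi
    rw [← hhb, Matrix.det_mul, Matrix.det_mul, Matrix.det_transpose] at h1
    exact mul_ne_zero (mul_ne_zero hdh hdB) hdh h1
  obtain ⟨a₀, ε, ha₀, hε, hgs⟩ := hG ι b hb
  -- at `2`
  obtain ⟨D, hD0, -, hDh⟩ := exists_den_mat h
  obtain ⟨k₂, -, hk₂⟩ := hNear (D * D * a₀) (mul_ne_zero (mul_ne_zero hD0 hD0) ha₀)
  obtain ⟨D₁, hD₁0, hD₁, hDA⟩ := exists_den_mat A
  obtain ⟨D₂, hD₂0, hD₂, hDk⟩ := exists_den_mat (k₂ * h)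
  have hda : (a₀.den : ℚ) ≠ 0 := by exact_mod_cast a₀.den_nz
  -- at infinity
  obtain ⟨kR, -, hkR⟩ := hIso
  set AR : Matrix ι ι ℝ := A.map (Rat.cast : ℚ → ℝ) with hAR
  set hR : Matrix ι ι ℝ := h.map (Rat.cast : ℚ → ℝ) with hhR
  obtain ⟨δ, hδ, hcon⟩ := cont AR (kR * hR) ε hε
  set a : ℚ := a₀ * D₁ * D₂ * a₀.den with hadef
  have ha : a ≠ 0 := mul_ne_zero (mul_ne_zero (mul_ne_zero ha₀ hD₁0) hD₂0) hda
  obtain ⟨q, hq1, hq2⟩ := hW ι (k₂ * h) (kR * hR) a δ ha hδ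
  have hS : (qᵀ * A * q)ᵀ = qᵀ * A * q := by
    rw [Matrix.transpose_mul, Matrix.transpose_mul, Matrix.transpose_transpose, hA,
      Matrix.mul_assoc]
  have hcast : ∀ M N : Matrix ι ι ℚ, (M * N).map (Rat.cast : ℚ → ℝ) =
      M.map (Rat.cast : ℚ → ℝ) * N.map (Rat.cast : ℚ → ℝ) := fun M N =>
    Matrix.map_mul (f := (Rat.castHom ℝ))
  obtain ⟨k', c, hk', hkc, hN⟩ := hgs (qᵀ * A * q) hS (by
    -- `q = k₂ h + a E`
    set E : Matrix ι ι ℚ := a⁻¹ • (q - k₂ * h) with hEdef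
    have hEin : In2 E := by
      intro i j
      rw [hEdef, Matrix.smul_apply, smul_eq_mul, Matrix.sub_apply, mul_comm, ← div_eq_mul_inv]
      exact hq1 i j
    have hqE : q = k₂ * h + a • E := by
      rw [hEdef, smul_smul, mul_inv_cancel₀ ha, one_smul]
      abel
    set N : Matrix ι ι ℚ := (D * D * a₀)⁻¹ • (k₂ᵀ * A * k₂ - B) with hNdef
    have hDD : D * D * a₀ ≠ 0 := mul_ne_zero (mul_ne_zero hD0 hD0) ha₀
    have hNin : In2 N := by
      intro i j
      rw [hNdef, Matrix.smul_apply, smul_eq_mul, mul_comm, ← div_eq_mul_inv]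
      exact hk₂ i j
    have hkN : k₂ᵀ * A * k₂ = B + (D * D * a₀) • N := by
      rw [hNdef, smul_smul, mul_inv_cancel₀ hDD, one_smul]
      abel
    have hmain : qᵀ * A * q - Matrix.diagonal b = a₀ • ((D • h)ᵀ * N * (D • h) +
        ((a₀.den : ℚ) • (Eᵀ * (D₁ • A) * (D₂ • (k₂ * h))) +
          (a₀.den : ℚ) • ((D₂ • (k₂ * h))ᵀ * (D₁ • A) * E)) +
        ((a₀.den : ℚ) * (a₀.num : ℚ) * D₁ * D₂ * D₂) • (Eᵀ * (D₁ • A) * E)) := by
      have e1 : (a₀.den : ℚ) * a₀ = a₀.num := by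
        rw [mul_comm]
        exact Rat.mul_den_eq_num a₀
      have e2 : hᵀ * (k₂ᵀ * (A * (k₂ * h))) = Matrix.diagonal b +
          (D * D * a₀) • (hᵀ * (N * h)) := by
        have : hᵀ * (k₂ᵀ * (A * (k₂ * h))) = hᵀ * (k₂ᵀ * A * k₂) * h := by
          simp only [Matrix.mul_assoc]
        rw [this, hkN, Matrix.mul_add, Matrix.add_mul, hhb, Matrix.mul_smul, Matrix.smul_mul,
          Matrix.mul_assoc]
      rw [hqE]
      simp only [Matrix.transpose_add, Matrix.transpose_smul, Matrix.transpose_mul,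
        Matrix.add_mul, Matrix.mul_add, Matrix.smul_mul, Matrix.mul_smul, Matrix.mul_assoc,
        smul_add, smul_smul]
      rw [e2]
      rw [← e1, hadef]
      module
    intro i j
    have h1 : (qᵀ * A * q) i j - Matrix.diagonal b i j = (qᵀ * A * q - Matrix.diagonal b) i j :=
      rfl
    rw [h1, hmain, Matrix.smul_apply, smul_eq_mul, mul_div_cancel_left₀ _ ha₀]
    have hden : (a₀.den : ℚ) ∈ Zp 2 := ZpA.nat_mem hp _
    have hnum : (a₀.num : ℚ) ∈ Zp 2 := ZpA.int_mem hp _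
    exact (((hDh.transpose.mul hNin).mul hDh).add
      ((((hEin.transpose.mul hDA).mul hDk).smul hden).add
        (((hDk.transpose.mul hDA).mul hEin).smul hden)) |>.add
      (((hEin.transpose.mul hDA).mul hEin).smul
        (ZpA.mul_mem hp (ZpA.mul_mem hp (ZpA.mul_mem hp (ZpA.mul_mem hp hden hnum) hD₁) hD₂)
          hD₂))) i j) (by
    intro i j
    have h1 := hcon (q.map (Rat.cast : ℚ → ℝ)) (fun i j => hq2 i j) i j
    have h2 : (kR * hR)ᵀ * AR * (kR * hR) = (Matrix.diagonal b).map (Rat.cast : ℚ → ℝ) := by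
      have : (kR * hR)ᵀ * AR * (kR * hR) = hRᵀ * (kRᵀ * AR * kR) * hR := by
        rw [Matrix.transpose_mul]
        simp only [Matrix.mul_assoc]
      rw [this, hkR, ← hhb, hcast, hcast]
      rfl
    have h3 : (q.map (Rat.cast : ℚ → ℝ))ᵀ * AR * q.map (Rat.cast : ℚ → ℝ) =
        (qᵀ * A * q).map (Rat.cast : ℚ → ℝ) := by
      rw [hcast, hcast]
      rfl
    rw [h2, h3] at h1
    simp only [Matrix.map_apply] at h1
    push_cast
    exact h1)
  refine ⟨q * k', h, c, b, ?_, hdh, ?_, hhb, hN⟩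
  · have h1 : (Matrix.diagonal c).det ≠ 0 := by
      rw [Matrix.det_diagonal]
      exact Finset.prod_ne_zero_iff.mpr (fun i _ => (hN i).1)
    rw [← hkc, Matrix.det_mul, Matrix.det_mul, Matrix.det_mul, Matrix.det_mul] at h1
    rw [Matrix.det_mul]
    intro h0
    rcases mul_eq_zero.mp h0 with h2 | h2
    · apply h1
      rw [h2]
      ring
    · exact hk' h2
  · rw [← hkc, Matrix.transpose_mul]
    simp only [Matrix.mul_assoc]

end Pool.NF
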