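import Pool.Agent.H18.NF.ZpB

/-!
# NF, module GSN: a matrix near to a diagonal matrix
-/

set_option autoImplicit false

namespace Pool.NF

open Matrix

namespace GsnAux

variable {ι : Type} [Fintype ι] [DecidableEq ι]

/-- the matrix which clears the row and the column `i` -/
noncomputable def cl (i : ι) (w : ι → ℚ) : Matrix ι ι ℚ :=
  1 - Matrix.vecMulVec (Pi.single i 1) w

lemma det_cl (i : ι) (w : ι → ℚ) (hw : w i = 0) : (cl i w).det = 1 := by
  have h1 : cl i w = 1 + Matrix.replicateCol Unit (Pi.single i (1 : ℚ)) *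
      Matrix.replicateRow Unit (-w) := by
    unfold cl
    ext a b
    simp only [Matrix.sub_apply, Matrix.add_apply, Matrix.vecMulVec_apply, Matrix.mul_apply,
      Matrix.replicateCol_apply, Matrix.replicateRow_apply, Finset.univ_unique,
      Finset.sum_singleton, Pi.neg_apply]
    ring
  rw [h1, Matrix.det_one_add_replicateCol_mul_replicateRow, dotProduct_single, Pi.neg_apply, hw]
  ring

lemma cl_entry (S : Matrix ι ι ℚ) (i : ι) (w : ι → ℚ) (j l : ι) :
    ((cl i w)ᵀ * S * cl i w) j l =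
      S j l - w j * S i l - S j i * w l + w j * w l * S i i := by
  have h1 : (cl i w)ᵀ = 1 - Matrix.vecMulVec w (Pi.single i 1) := by
    unfold cl
    rw [Matrix.transpose_sub, Matrix.transpose_one, Matrix.transpose_vecMulVec]
  have h2 : (cl i w)ᵀ * S = S - Matrix.vecMulVec w (fun b => S i b) := by
    rw [h1, Matrix.sub_mul, Matrix.one_mul, Matrix.vecMulVec_mul, Matrix.single_one_vecMul]
    rfl
  rw [h2]
  unfold cl
  rw [Matrix.mul_sub, Matrix.mul_one, Matrix.sub_apply, Matrix.mul_vecMulVec,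
    Matrix.vecMulVec_apply, Matrix.mulVec_single_one]
  simp only [Matrix.sub_apply, Matrix.vecMulVec_apply, Matrix.col_apply]
  ring

/-- near to the diagonal matrix of `b` -/
def Nr (a : ℚ) (ε : ℝ) (b : ι → ℚ) (S : Matrix ι ι ℚ) : Prop :=
  (∀ i j, (S i j - Matrix.diagonal b i j) / a ∈ Zp 2) ∧
    ∀ i j, |((S i j - Matrix.diagonal b i j : ℚ) : ℝ)| < ε

/-- one step -/
lemma step (b : ι → ℚ) (hb : ∀ i, b i ≠ 0) (i : ι) (a₀ : ℚ) (ε₀ : ℝ) (ha₀ : a₀ ≠ 0)
    (hε₀ : 0 < ε₀) : ∃ (a : ℚ) (ε : ℝ), a ≠ 0 ∧ 0 < ε ∧ ∀ S : Matrix ι ι ℚ, Sᵀ = S →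
      Nr a ε b S → ∃ k : Matrix ι ι ℚ, k.det ≠ 0 ∧ Nr a₀ ε₀ b (kᵀ * S * k) ∧
        (∀ l, l ≠ i → (kᵀ * S * k) i l = 0) ∧
        ∀ j, (∀ l, l ≠ j → S j l = 0) → ∀ l, l ≠ j → (kᵀ * S * k) j l = 0 := by
  have hp : Nat.Prime 2 := Nat.prime_two
  obtain ⟨a, ha, haa, hab⟩ := ZpA.exists_multiple hp ha₀ (mul_ne_zero two_ne_zero (hb i))
  have hbR : 0 < |(b i : ℝ)| := by
    rw [abs_pos]
    exact_mod_cast hb i
  refine ⟨a, min (ε₀ / 2) (|(b i : ℝ)| / 2), ha, by positivity, ?_⟩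
  intro S hS hN
  obtain ⟨hN1, hN2⟩ := hN
  set ε : ℝ := min (ε₀ / 2) (|(b i : ℝ)| / 2) with hεdef
  have hε1 : ε ≤ ε₀ / 2 := min_le_left _ _
  have hε2 : ε ≤ |(b i : ℝ)| / 2 := min_le_right _ _
  have hsym : ∀ j l, S j l = S l j := by
    intro j l
    conv_lhs => rw [← hS]
    rfl
  -- the pivot
  set u : ℚ := S i i / b i with hu
  have hu1 : (u - 1) / 2 ∈ Zp 2 := by
    have h1 : (u - 1) / 2 = (S i i - b i) / a * (a / (2 * b i)) := by
      rw [hu]
      have := hb i
      field_simp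
    rw [h1]
    have h2 := hN1 i i
    rw [Matrix.diagonal_apply_eq] at h2
    exact ZpA.mul_mem hp h2 hab
  obtain ⟨hu0, huinv⟩ := ZpA.inv_mem hu1
  have hSii : S i i ≠ 0 := by
    intro h
    apply hu0
    rw [hu, h, zero_div]
  have hSu : S i i = b i * u := by
    rw [hu]
    have := hb i
    field_simp
  have hSabs : |(b i : ℝ)| / 2 < |(S i i : ℝ)| := by
    have h2 := hN2 i i
    rw [Matrix.diagonal_apply_eq] at h2
    push_cast at h2
    have h3 : |(b i : ℝ)| ≤ |(S i i : ℝ)| + |(S i i : ℝ) - b i| := by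
      have := abs_sub_abs_le_abs_sub (b i : ℝ) (S i i : ℝ)
      rw [abs_sub_comm] at this
      linarith only [this]
    linarith only [h2, h3, hε2]
  set w : ι → ℚ := fun j => if j = i then 0 else S i j / S i i with hw
  have hwi : w i = 0 := by
    rw [hw]
    exact if_pos rfl
  have hwj : ∀ j, j ≠ i → w j = S i j / S i i := by
    intro j hj
    rw [hw]
    exact if_neg hj
  have hrow : ∀ l, l ≠ i → ((cl i w)ᵀ * S * cl i w) i l = 0 := by
    intro l hl
    rw [cl_entry, hwi, hwj l hl]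
    field_simp
    ring
  have hcol : ∀ l, l ≠ i → ((cl i w)ᵀ * S * cl i w) l i = 0 := by
    intro l hl
    rw [cl_entry, hwi, hwj l hl, hsym l i]
    field_simp
    ring
  have hoth : ∀ j l, j ≠ i → l ≠ i → ((cl i w)ᵀ * S * cl i w) j l =
      S j l - S i j * S i l / S i i := by
    intro j l hj hl
    rw [cl_entry, hwj j hj, hwj l hl, hsym j i]
    field_simp
    ring
  have hdiag : ((cl i w)ᵀ * S * cl i w) i i = S i i := by
    rw [cl_entry, hwi]
    ring
  have hsq : ∀ j, j ≠ i → (S i j) / a ∈ Zp 2 ∧ |(S i j : ℝ)| < ε := by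
    intro j hj
    have h1 := hN1 i j
    have h2 := hN2 i j
    rw [Matrix.diagonal_apply_ne _ (Ne.symm hj), sub_zero] at h1 h2
    exact ⟨h1, h2⟩
  refine ⟨cl i w, ?_, ⟨?_, ?_⟩, hrow, ?_⟩
  · rw [det_cl i w hwi]
    exact one_ne_zero
  · intro j l
    have hgen : (S j l - Matrix.diagonal b j l) / a₀ ∈ Zp 2 :=
      ZpA.mul_div_mem hp ha₀ (hN1 j l) haa ha
    by_cases hj : j = i
    · by_cases hl : l = i
      · rw [hj, hl, hdiag]
        rw [hj, hl] at hgen
        exact hgen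
      · rw [hj, hrow l hl, Matrix.diagonal_apply_ne _ (Ne.symm hl), sub_zero, zero_div]
        exact ZpA.zero_mem hp
    · by_cases hl : l = i
      · rw [hl, hcol j hj, Matrix.diagonal_apply_ne _ hj, sub_zero, zero_div]
        exact ZpA.zero_mem hp
      · rw [hoth j l hj hl]
        have h1 : (S j l - S i j * S i l / S i i - Matrix.diagonal b j l) / a₀ =
            (S j l - Matrix.diagonal b j l) / a₀ -
              (S i j / a) * (S i l / a) * (a / a₀) * (2 * (a / (2 * b i))) * u⁻¹ := by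
          rw [hSu]
          have := hb i
          field_simp
          ring
        rw [h1]
        apply ZpA.sub_mem hp hgen
        have htwo : (2 : ℚ) ∈ Zp 2 := by exact_mod_cast ZpA.nat_mem hp 2
        exact ZpA.mul_mem hp (ZpA.mul_mem hp (ZpA.mul_mem hp
          (ZpA.mul_mem hp (hsq j hj).1 (hsq l hl).1) haa) (ZpA.mul_mem hp htwo hab)) huinv
  · intro j l
    have hgen : |((S j l - Matrix.diagonal b j l : ℚ) : ℝ)| < ε := hN2 j l
    by_cases hj : j = i
    · by_cases hl : l = i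
      · rw [hj, hl, hdiag]
        rw [hj, hl] at hgen
        linarith only [hgen, hε1, hε₀]
      · rw [hj, hrow l hl, Matrix.diagonal_apply_ne _ (Ne.symm hl), sub_zero]
        rw [Rat.cast_zero, abs_zero]
        exact hε₀
    · by_cases hl : l = i
      · rw [hl, hcol j hj, Matrix.diagonal_apply_ne _ hj, sub_zero]
        rw [Rat.cast_zero, abs_zero]
        exact hε₀
      · rw [hoth j l hj hl]
        have h1 : ((S j l - S i j * S i l / S i i - Matrix.diagonal b j l : ℚ) : ℝ) =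
            ((S j l - Matrix.diagonal b j l : ℚ) : ℝ) -
              (S i j : ℝ) * (S i l : ℝ) / (S i i : ℝ) := by
          push_cast
          ring
        rw [h1]
        have hSpos : 0 < |(S i i : ℝ)| := by linarith only [hSabs, hbR]
        have h2 : |(S i j : ℝ) * (S i l : ℝ) / (S i i : ℝ)| ≤ ε := by
          rw [abs_div, abs_mul, div_le_iff₀ hSpos]
          have a1 := (hsq j hj).2
          have a2 := (hsq l hl).2
          have a3 : 0 ≤ ε := (abs_nonneg _).trans a1.le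
          have a4 : |(S i j : ℝ)| * |(S i l : ℝ)| ≤ ε * ε :=
            mul_le_mul a1.le a2.le (abs_nonneg _) a3
          have a5 : ε * ε ≤ ε * |(S i i : ℝ)| :=
            mul_le_mul_of_nonneg_left (hε2.trans hSabs.le) a3
          exact a4.trans a5
        have h3 := abs_sub ((S j l - Matrix.diagonal b j l : ℚ) : ℝ)
          ((S i j : ℝ) * (S i l : ℝ) / (S i i : ℝ))
        linarith only [h2, h3, hgen, hε1]
  · intro j hj l hl
    by_cases hji : j = i
    · rw [hji] at hl ⊢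
      exact hrow l hl
    · have hSji : S i j = 0 := by
        rw [hsym]
        exact hj i (Ne.symm hji)
      by_cases hli : l = i
      · rw [hli]
        exact hcol j hji
      · rw [hoth j l hji hli, hj l hl, hSji]
        ring

/-- all the steps -/
lemma steps (b : ι → ℚ) (hb : ∀ i, b i ≠ 0) (s : Finset ι) : ∀ (a₀ : ℚ) (ε₀ : ℝ), a₀ ≠ 0 →
    0 < ε₀ → ∃ (a : ℚ) (ε : ℝ), a ≠ 0 ∧ 0 < ε ∧ ∀ S : Matrix ι ι ℚ, Sᵀ = S →
      Nr a ε b S → ∃ k : Matrix ι ι ℚ, k.det ≠ 0 ∧ Nr a₀ ε₀ b (kᵀ * S * k) ∧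
        ∀ j ∈ s, ∀ l, l ≠ j → (kᵀ * S * k) j l = 0 := by
  induction s using Finset.induction_on with
  | empty =>
    intro a₀ ε₀ ha₀ hε₀
    refine ⟨a₀, ε₀, ha₀, hε₀, ?_⟩
    intro S _ hN
    refine ⟨1, ?_, ?_, ?_⟩
    · rw [Matrix.det_one]
      exact one_ne_zero
    · rw [Matrix.transpose_one, Matrix.one_mul, Matrix.mul_one]
      exact hN
    · intro j hj
      exact absurd hj (Finset.notMem_empty j)
  | insert i s his ih =>
    intro a₀ ε₀ ha₀ hε₀
    obtain ⟨a₁, ε₁, ha₁, hε₁, h1⟩ := step b hb i a₀ ε₀ ha₀ hε₀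
    obtain ⟨a₂, ε₂, ha₂, hε₂, h2⟩ := ih a₁ ε₁ ha₁ hε₁
    refine ⟨a₂, ε₂, ha₂, hε₂, ?_⟩
    intro S hS hN
    obtain ⟨k, hk, hkN, hk0⟩ := h2 S hS hN
    have hsym : (kᵀ * S * k)ᵀ = kᵀ * S * k := by
      rw [Matrix.transpose_mul, Matrix.transpose_mul, Matrix.transpose_transpose, hS,
        Matrix.mul_assoc]
    obtain ⟨k', hk', hN', hi', hj'⟩ := h1 (kᵀ * S * k) hsym hkN
    have hprod : (k * k')ᵀ * S * (k * k') = k'ᵀ * (kᵀ * S * k) * k' := by
      rw [Matrix.transpose_mul]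
      simp only [Matrix.mul_assoc]
    refine ⟨k * k', ?_, ?_, ?_⟩
    · rw [Matrix.det_mul]
      exact mul_ne_zero hk hk'
    · rw [hprod]
      exact hN'
    · intro j hj l hl
      rw [hprod]
      rcases Finset.mem_insert.mp hj with rfl | hjs
      · exact hi' l hl
      · exact hj' j (hk0 j hjs) l hl

end GsnAux

open GsnAux in
theorem gsn : GSNStmt := by
  intro ι _ _ b hb
  have hp : Nat.Prime 2 := Nat.prime_two
  obtain ⟨a₀, ha₀, ha⟩ := ZpA.exists_multiple_finset hp (Finset.univ : Finset ι)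
    (fun i => 8 * b i) (fun i _ => mul_ne_zero (by norm_num) (hb i))
  obtain ⟨ε₀, hε₀, hε⟩ : ∃ ε₀ : ℝ, 0 < ε₀ ∧ ∀ i, ε₀ ≤ |(b i : ℝ)| := by
    by_cases hne : Nonempty ι
    · have hne' : (Finset.univ : Finset ι).Nonempty := Finset.univ_nonempty
      obtain ⟨i, -, hi⟩ := Finset.exists_min_image Finset.univ (fun i => |(b i : ℝ)|) hne'
      refine ⟨|(b i : ℝ)|, ?_, fun j => hi j (Finset.mem_univ j)⟩
      rw [abs_pos]
      exact_mod_cast hb i
    · exact ⟨1, one_pos, fun i => absurd ⟨i⟩ hne⟩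
  obtain ⟨a, ε, ha1, hε1, h⟩ := steps b hb Finset.univ a₀ ε₀ ha₀ hε₀
  refine ⟨a, ε, ha1, hε1, ?_⟩
  intro S hS h1 h2
  obtain ⟨k, hk, ⟨hN1, hN2⟩, hk0⟩ := h S hS ⟨h1, h2⟩
  refine ⟨k, fun i => (kᵀ * S * k) i i, hk, ?_, ?_⟩
  · ext i j
    by_cases hij : i = j
    · rw [hij, Matrix.diagonal_apply_eq]
    · rw [Matrix.diagonal_apply_ne _ hij]
      exact hk0 i (Finset.mem_univ i) j (Ne.symm hij)
  · intro i
    have hbi := hb i
    have c1 := hN1 i i
    have c2 := hN2 i i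
    rw [Matrix.diagonal_apply_eq] at c1 c2
    set c : ℚ := (kᵀ * S * k) i i with hc
    have h8 : (c / b i - 1) / 8 ∈ Zp 2 := by
      have h3 : (c / b i - 1) / 8 = (c - b i) / a₀ * (a₀ / (8 * b i)) := by
        field_simp
      rw [h3]
      exact ZpA.mul_mem hp c1 (ha i (Finset.mem_univ i))
    have hpos : 0 < c / b i := by
      have h4 : |((c / b i - 1 : ℚ) : ℝ)| < 1 := by
        have h5 : ((c / b i - 1 : ℚ) : ℝ) = ((c - b i : ℚ) : ℝ) / (b i : ℝ) := by
          have hbR : (b i : ℝ) ≠ 0 := by exact_mod_cast hbi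
          push_cast
          field_simp
        have hbR : 0 < |(b i : ℝ)| := lt_of_lt_of_le hε₀ (hε i)
        rw [h5, abs_div, div_lt_one hbR]
        exact lt_of_lt_of_le c2 (hε i)
      have h6 : |c / b i - 1| < 1 := by exact_mod_cast h4
      rw [abs_lt] at h6
      linarith only [h6.1]
    refine ⟨?_, hbi, hpos, h8⟩
    intro h0
    have h0' : c = 0 := h0
    rw [h0', zero_div] at hpos
    exact lt_irrefl _ hpos

end Pool.NF
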