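import Pool.Agent.H18.NF.ZpB

/-!
# NF, module WAQ: weak approximation at `2` and at infinity
-/

set_option autoImplicit false

namespace Pool.NF

open Matrix

/-- one number -/
private lemma waq_one (q r : ℝ) (a : ℝ) (ha : a ≠ 0) (ε : ℝ) (hε : 0 < ε) :
    ∃ (m : ℤ) (n : ℕ), |q + a * ((m : ℝ) / ((2 * n + 1 : ℕ) : ℝ)) - r| < ε := by
  obtain ⟨n, hn⟩ := exists_nat_gt (|a| / ε)
  have hN : (0 : ℝ) < ((2 * n + 1 : ℕ) : ℝ) := by positivity
  set N : ℝ := ((2 * n + 1 : ℕ) : ℝ) with hNdef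
  set s : ℝ := (r - q) / a with hs
  refine ⟨⌊N * s⌋, n, ?_⟩
  have h1 : (⌊N * s⌋ : ℝ) ≤ N * s := Int.floor_le _
  have h2 : N * s < ⌊N * s⌋ + 1 := Int.lt_floor_add_one _
  have h3 : |(⌊N * s⌋ : ℝ) / N - s| ≤ 1 / N := by
    have h4 : (⌊N * s⌋ : ℝ) / N - s = (⌊N * s⌋ - N * s) / N := by
      field_simp
    rw [h4, abs_div, abs_of_pos hN]
    apply div_le_div_of_nonneg_right _ hN.le
    rw [abs_le]
    constructor
    · linarith only [h2]
    · linarith only [h1]
  have h5 : q + a * ((⌊N * s⌋ : ℝ) / N) - r = a * ((⌊N * s⌋ : ℝ) / N - s) := by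
    have : a * s = r - q := by
      rw [hs]
      field_simp
    linarith only [this]
  rw [h5, abs_mul]
  have hn2 : |a| / ε < N := by
    have : (n : ℝ) ≤ N := by
      rw [hNdef]
      push_cast
      have : (0 : ℝ) ≤ n := Nat.cast_nonneg n
      linarith only [this]
    linarith only [hn, this]
  have hn3 : |a| < N * ε := by
    rwa [div_lt_iff₀ hε] at hn2
  calc |a| * |(⌊N * s⌋ : ℝ) / N - s| ≤ |a| * (1 / N) :=
        mul_le_mul_of_nonneg_left h3 (abs_nonneg a)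
    _ = |a| / N := by rw [mul_one_div]
    _ < ε := by
        rw [div_lt_iff₀ hN, mul_comm]
        exact hn3

theorem waq : WAQStmt := by
  intro ι _ k₂ k a ε ha hε
  have haR : (a : ℝ) ≠ 0 := by exact_mod_cast ha
  have h := fun i j => waq_one (k₂ i j : ℝ) (k i j) (a : ℝ) haR ε hε
  choose m n hmn using h
  refine ⟨Matrix.of fun i j => k₂ i j + a * ((m i j : ℚ) / (((2 * n i j + 1 : ℕ) : ℤ) : ℚ)),
    ?_, ?_⟩
  · intro i j
    have h1 : (Matrix.of (fun i j => k₂ i j + a * ((m i j : ℚ) /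
        (((2 * n i j + 1 : ℕ) : ℤ) : ℚ))) i j - k₂ i j) / a =
        (m i j : ℚ) / (((2 * n i j + 1 : ℕ) : ℤ) : ℚ) := by
      rw [Matrix.of_apply]
      field_simp
      ring
    rw [h1]
    apply ZpA.div_mem
    intro hd
    have : (2 : ℕ) ∣ 2 * n i j + 1 := by exact_mod_cast hd
    omega
  · intro i j
    rw [Matrix.of_apply]
    have := hmn i j
    push_cast at this ⊢
    exact this

end Pool.NF
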