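import Pool.Agent.H85.NF.Q

/-!
# NF: elementary properties of the rational numbers regular at a prime
-/

set_option autoImplicit false

namespace Pool.NF.ZpA

open Matrix

variable {p : ℕ}

lemma mem_iff {x : ℚ} : x ∈ Zp p ↔ ¬ p ∣ x.den := Iff.rfl

lemma int_mem (hp : p.Prime) (n : ℤ) : (n : ℚ) ∈ Zp p := by
  rw [mem_iff, Rat.den_intCast]
  exact hp.one_lt.ne' ∘ Nat.dvd_one.mp

lemma nat_mem (hp : p.Prime) (n : ℕ) : (n : ℚ) ∈ Zp p := by
  have := int_mem hp (n : ℤ)
  rwa [Int.cast_natCast] at this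

lemma zero_mem (hp : p.Prime) : (0 : ℚ) ∈ Zp p := by
  have := int_mem hp 0
  rwa [Int.cast_zero] at this

lemma one_mem (hp : p.Prime) : (1 : ℚ) ∈ Zp p := by
  have := int_mem hp 1
  rwa [Int.cast_one] at this

lemma add_mem (hp : p.Prime) {x y : ℚ} (hx : x ∈ Zp p) (hy : y ∈ Zp p) : x + y ∈ Zp p := by
  rw [mem_iff] at *
  intro h
  rcases (hp.dvd_mul).mp (h.trans (Rat.add_den_dvd x y)) with h1 | h1
  · exact hx h1
  · exact hy h1

lemma mul_mem (hp : p.Prime) {x y : ℚ} (hx : x ∈ Zp p) (hy : y ∈ Zp p) : x * y ∈ Zp p := by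
  rw [mem_iff] at *
  intro h
  rcases (hp.dvd_mul).mp (h.trans (Rat.mul_den_dvd x y)) with h1 | h1
  · exact hx h1
  · exact hy h1

lemma neg_mem {x : ℚ} (hx : x ∈ Zp p) : -x ∈ Zp p := by
  rw [mem_iff] at *
  rwa [Rat.neg_den]

lemma sub_mem (hp : p.Prime) {x y : ℚ} (hx : x ∈ Zp p) (hy : y ∈ Zp p) : x - y ∈ Zp p := by
  rw [sub_eq_add_neg]
  exact add_mem hp hx (neg_mem hy)

lemma sum_mem (hp : p.Prime) {ι : Type*} (s : Finset ι) (f : ι → ℚ) (h : ∀ i ∈ s, f i ∈ Zp p) :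
    ∑ i ∈ s, f i ∈ Zp p := by
  classical
  induction s using Finset.induction_on with
  | empty =>
    rw [Finset.sum_empty]
    exact zero_mem hp
  | insert a s ha ih =>
    rw [Finset.sum_insert ha]
    exact add_mem hp (h a (Finset.mem_insert_self a s))
      (ih (fun i hi => h i (Finset.mem_insert_of_mem hi)))

/-- a quotient of integers with denominator prime to `p` -/
lemma div_mem {m n : ℤ} (h : ¬ (p : ℤ) ∣ n) : (m : ℚ) / n ∈ Zp p := by
  rw [mem_iff]
  intro hd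
  apply h
  have h1 := Rat.den_dvd m n
  rw [Rat.divInt_eq_div] at h1
  exact (Int.natCast_dvd_natCast.mpr hd).trans h1

/-- products with a common multiple -/
lemma mul_div_mem (hp : p.Prime) {x a b : ℚ} (hb : b ≠ 0) (hx : x / a ∈ Zp p)
    (hab : a / b ∈ Zp p) (ha : a ≠ 0) : x / b ∈ Zp p := by
  have : x / b = x / a * (a / b) := by
    field_simp
  rw [this]
  exact mul_mem hp hx hab

/-- units -/
lemma inv_mem {u : ℚ} (h : (u - 1) / 2 ∈ Zp 2) : u ≠ 0 ∧ u⁻¹ ∈ Zp 2 := by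
  have hp : Nat.Prime 2 := Nat.prime_two
  have hhalf : (1 / 2 : ℚ) ∉ Zp 2 := by
    rw [mem_iff, not_not]
    norm_num
  have hu : u ∈ Zp 2 := by
    have h1 : u = 2 * ((u - 1) / 2) + 1 := by ring
    rw [h1]
    exact add_mem hp (mul_mem hp (by exact_mod_cast nat_mem hp 2) h) (one_mem hp)
  have hnum : ¬ (2 : ℤ) ∣ u.num := by
    rintro ⟨m, hm⟩
    apply hhalf
    have h1 : u / 2 = (m : ℚ) / (u.den : ℤ) := by
      have h2 : (u.num : ℚ) / (u.den : ℚ) = u := Rat.num_div_den u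
      have hd : (u.den : ℚ) ≠ 0 := by exact_mod_cast u.den_nz
      have h3 : (u.num : ℚ) = 2 * m := by exact_mod_cast congrArg (fun z : ℤ => (z : ℚ)) hm
      calc u / 2 = (u.num : ℚ) / (u.den : ℚ) / 2 := by rw [h2]
        _ = (m : ℚ) / (u.den : ℤ) := by
            rw [h3]
            push_cast
            ring
    have h3 : u / 2 ∈ Zp 2 := by
      rw [h1]
      apply div_mem
      intro h4
      apply hu
      exact_mod_cast h4
    have h5 : (1 / 2 : ℚ) = u / 2 - (u - 1) / 2 := by ring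
    rw [h5]
    exact sub_mem hp h3 h
  have hu0 : u ≠ 0 := by
    intro h0
    apply hnum
    rw [h0]
    exact dvd_zero _
  refine ⟨hu0, ?_⟩
  have h1 : u⁻¹ = ((u.den : ℤ) : ℚ) / (u.num : ℤ) := by
    have h2 : u = (u.num : ℚ) / (u.den : ℚ) := (Rat.num_div_den u).symm
    nth_rewrite 1 [h2]
    rw [inv_div]
    push_cast
    rfl
  rw [h1]
  apply div_mem
  exact_mod_cast hnum

/-- common multiples -/
lemma exists_multiple (hp : p.Prime) {a b : ℚ} (ha : a ≠ 0) (hb : b ≠ 0) :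
    ∃ c : ℚ, c ≠ 0 ∧ c / a ∈ Zp p ∧ c / b ∈ Zp p := by
  have ha' : (a.num : ℚ) ≠ 0 := by exact_mod_cast Rat.num_ne_zero.mpr ha
  have hb' : (b.num : ℚ) ≠ 0 := by exact_mod_cast Rat.num_ne_zero.mpr hb
  have hda : (a.den : ℚ) ≠ 0 := by exact_mod_cast a.den_nz
  have hdb : (b.den : ℚ) ≠ 0 := by exact_mod_cast b.den_nz
  have h1 : (a.num : ℚ) / a = a.den := by
    nth_rewrite 2 [← Rat.num_div_den a]
    field_simp
  have h2 : (b.num : ℚ) / b = b.den := by
    nth_rewrite 2 [← Rat.num_div_den b]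
    field_simp
  refine ⟨a.num * b.num, mul_ne_zero ha' hb', ?_, ?_⟩
  · rw [mul_div_right_comm, h1]
    exact mul_mem hp (nat_mem hp _) (int_mem hp _)
  · rw [mul_div_assoc, h2]
    exact mul_mem hp (int_mem hp _) (nat_mem hp _)

/-- common multiples of finitely many numbers -/
lemma exists_multiple_finset (hp : p.Prime) {ι : Type*} (s : Finset ι) (f : ι → ℚ)
    (hf : ∀ i ∈ s, f i ≠ 0) : ∃ c : ℚ, c ≠ 0 ∧ ∀ i ∈ s, c / f i ∈ Zp p := by
  classical
  induction s using Finset.induction_on with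
  | empty => exact ⟨1, one_ne_zero, fun i hi => absurd hi (Finset.notMem_empty i)⟩
  | insert a s ha ih =>
    obtain ⟨c, hc0, hc⟩ := ih (fun i hi => hf i (Finset.mem_insert_of_mem hi))
    obtain ⟨d, hd0, hd1, hd2⟩ := exists_multiple hp hc0 (hf a (Finset.mem_insert_self a s))
    refine ⟨d, hd0, ?_⟩
    intro i hi
    rcases Finset.mem_insert.mp hi with rfl | his
    · exact hd2
    · exact mul_div_mem hp (hf i hi) hd1 (hc i his) hc0

/-- common denominators of finitely many numbers -/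
lemma exists_den (hp : p.Prime) {ι : Type*} (s : Finset ι) (f : ι → ℚ) :
    ∃ c : ℚ, c ≠ 0 ∧ c ∈ Zp p ∧ ∀ i ∈ s, c * f i ∈ Zp p := by
  classical
  induction s using Finset.induction_on with
  | empty => exact ⟨1, one_ne_zero, one_mem hp, fun i hi => absurd hi (Finset.notMem_empty i)⟩
  | insert a s ha ih =>
    obtain ⟨c, hc0, hc1, hc⟩ := ih
    have hd : ((f a).den : ℚ) ≠ 0 := by exact_mod_cast (f a).den_nz
    refine ⟨c * (f a).den, mul_ne_zero hc0 hd, mul_mem hp hc1 (nat_mem hp _), ?_⟩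
    intro i hi
    rcases Finset.mem_insert.mp hi with rfl | his
    · have h1 : c * ((f i).den : ℚ) * f i = c * (f i).num := by
        rw [mul_assoc, Rat.den_mul_eq_num]
      rw [h1]
      exact mul_mem hp hc1 (int_mem hp _)
    · have h1 : c * ((f a).den : ℚ) * f i = (f a).den * (c * f i) := by ring
      rw [h1]
      exact mul_mem hp (nat_mem hp _) (hc i his)

end Pool.NF.ZpA
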